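import Pool.Agent.Helper34.PW.Case1
import Pool.Agent.Helper64.FS.D3
import Pool.Agent.Helper64.FS.D4
import Pool.Agent.Helper64.FS.C2
import Pool.Agent.Helper64.FS.Conv

/-!
# The Freiheitssatz for powers of elements with free relation module
-/

set_option autoImplicit false

namespace Pool.Agent.Helper34.PW

open Pool.Agent.Helper64.FS

universe u v

variable {F : Type u} [Group F] [TopologicalSpace F] [IsTopologicalGroup F] [CompactSpace F]
  [T2Space F] [TotallyDisconnectedSpace F]

/-- The relation module of `s` is free: every locally constant function `f : F / T → 𝔽_p`,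
`T = s^F`, has the form `a ↦ γ (a⁻¹ s a)` for a continuous homomorphism `γ : T → 𝔽_p`. -/
def FreeRelAt (p : ℕ) {F : Type u} [Group F] [TopologicalSpace F] (T : Subgroup F) (s : F) : Prop :=
  ∀ f ∈ V p T, ∃ γ : F → ZMod p, IsH T ⊥ γ ∧ ∀ a, γ (a⁻¹ * s * a) = f a

theorem freeRel_of_good {p : ℕ} [Fact p.Prime] {X : Type v} {ι : X → F} (hF : IsFree p ι) {s : F}
    (hs : s ≠ 1) (hgood : Good p (ncl s)) : FreeRelAt p (ncl s) s := by
  have hn : (ncl s).Normal := ncl_normal s
  refine exists_gamma hF (ncl s) (ncl_closed s) hgood (mem_ncl s) fun h => ?_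
  refine not_mem_fratF hF.pindex hs (frat_le (fratF_closed p (ncl s)) ?_ ?_ h)
  · intro a ha b _
    exact comm_mem_fratF p ha b
  · intro a ha
    exact pow_mem_fratF p ha

/-- The Freiheitssatz for `r` associated to `s ^ p ^ j`. -/
theorem freiheit {p : ℕ} [Fact p.Prime] {X : Type v} {ι : X → F} (hF : IsFree p ι) {s : F}
    (hs : FreeRelAt p (ncl s) s) {j : ℕ} (hj : 1 ≤ j) {r : F} (hr : ncl r = ncl (s ^ p ^ j))
    {X' : Set X} (hX' : Minimal (fun Y : Set X => ∃ t ∈ clS ι Y, ncl t = ncl r) X') {x : X}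
    (hx : x ∈ X') : clS ι {x}ᶜ ⊓ ncl r = ⊥ := by
  have hn : (ncl s).Normal := ncl_normal s
  have hno := no_assoc hF hX' hx
  rw [hr] at hno ⊢
  exact freiheit_pow hF (ncl s) (ncl_closed s) (mem_ncl s) (hS_of_free (ncl s) (mem_ncl s) hs) hj x
    hno

/-- The case `s = 1`. -/
theorem freiheit_one {X : Type v} {ι : X → F} {r : F} (hr : ncl r = ncl (1 : F)) {X' : Set X}
    (hX' : Minimal (fun Y : Set X => ∃ t ∈ clS ι Y, ncl t = ncl r) X') {x : X}
    (hx : x ∈ X') : False := by
  have h := hX'.2 (y := ∅) ⟨1, Subgroup.one_mem _, hr.symm⟩ (Set.empty_subset _)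
  exact h hx

end Pool.Agent.Helper34.PW
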