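import Pool.Agent.Helper85.PF.Coeff
import Pool.Agent.Helper34.PW.Main

/-!
# Completed group algebras: power series and functionals on locally constant functions

If the closed ideal of `μ s - 1` in the ring of power series is completely prime, the completed group
algebra of `F / s^F`, as the dual of the space of locally constant functions, has no zero divisors.
-/

set_option autoImplicit false

namespace Pool.Agent.Helper34.PW

open Pool.Agent.Helper85.PF Filter Topology
open Pool.Agent.Helper64.FS (ON LCf V mem_V NoZD)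
open Pool.Agent.Helper85.PF.A5aux (mon trunc trunc_apply)

universe u

variable {p : ℕ} [Fact p.Prime] {X F : Type u} [Group F] [TopologicalSpace F]
  [IsTopologicalGroup F] {ι : X → F}

/-- the series of a functional -/
def ser (μ : F →* NC X (ZMod p)) (α : (F → ZMod p) →ₗ[ZMod p] ZMod p) : NC X (ZMod p) :=
  fun w => α fun g => μ g w

/-- the convolution of two functionals -/
def cnv (α β : (F → ZMod p) →ₗ[ZMod p] ZMod p) : (F → ZMod p) →ₗ[ZMod p] ZMod p where
  toFun h := α fun a => β fun b => h (a * b)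
  map_add' h h' := by
    rw [← map_add]
    congr 1
    funext a
    rw [Pi.add_apply, ← map_add]
    rfl
  map_smul' c h := by
    rw [RingHom.id_apply, ← map_smul]
    congr 1
    funext a
    rw [Pi.smul_apply, ← map_smul]
    rfl

theorem lin_eq (L : NC X (ZMod p) →ₗ[ZMod p] ZMod p) (W : Finset (List X))
    (hW : ∀ a b : NC X (ZMod p), (∀ w ∈ W, a w = b w) → L a = L b) (a : NC X (ZMod p)) :
    L a = ∑ w ∈ W, a w * L (mon w) := by
  classical
  rw [hW a (trunc a W) (fun w hw => by rw [trunc_apply, if_pos hw]), trunc, map_sum]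
  refine Finset.sum_congr rfl fun w _ => ?_
  rw [← NC.smul_eq_C_mul, map_smul, smul_eq_mul]

theorem ser_lin (μ : F →* NC X (ZMod p)) (α : (F → ZMod p) →ₗ[ZMod p] ZMod p)
    (L : NC X (ZMod p) →ₗ[ZMod p] ZMod p) (W : Finset (List X))
    (hW : ∀ a b : NC X (ZMod p), (∀ w ∈ W, a w = b w) → L a = L b) :
    L (ser μ α) = α fun g => L (μ g) := by
  have h : (fun g => L (μ g)) = ∑ w ∈ W, L (mon w) • fun g => μ g w := by
    funext g
    rw [lin_eq L W hW, Finset.sum_apply]
    refine Finset.sum_congr rfl fun w _ => ?_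
    rw [Pi.smul_apply, smul_eq_mul, mul_comm]
  rw [h, map_sum, lin_eq L W hW]
  refine Finset.sum_congr rfl fun w _ => ?_
  rw [map_smul, smul_eq_mul, mul_comm]
  rfl

theorem ser_cnv (μ : F →* NC X (ZMod p)) (α β : (F → ZMod p) →ₗ[ZMod p] ZMod p) :
    ser μ (cnv α β) = ser μ α * ser μ β := by
  ext w
  rw [NC.mul_apply_sum]
  change (α fun a => β fun b => μ (a * b) w) = _
  have h : (fun a => β fun b => μ (a * b) w) =
      ∑ i ∈ Finset.range (w.length + 1), (ser μ β (w.drop i)) • fun a => μ a (w.take i) := by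
    funext a
    have h1 : (fun b => μ (a * b) w) =
        ∑ i ∈ Finset.range (w.length + 1), (μ a (w.take i)) • fun b => μ b (w.drop i) := by
      funext b
      rw [map_mul, NC.mul_apply_sum, Finset.sum_apply]
      rfl
    rw [h1, map_sum, Finset.sum_apply]
    refine Finset.sum_congr rfl fun i _ => ?_
    rw [map_smul, smul_eq_mul, Pi.smul_apply, smul_eq_mul, mul_comm]
    rfl
  rw [h, map_sum]
  refine Finset.sum_congr rfl fun i _ => ?_
  rw [map_smul, smul_eq_mul, mul_comm]
  rfl

/-- a continuous function on a compact totally disconnected group is uniformly locally constant -/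
theorem exists_on (hF : IsProP p F) (h : F → ZMod p) (hh : Continuous h) :
    ∃ N : Subgroup F, ON N ∧ ∀ u, ∀ n ∈ N, h (u * n) = h u := by
  have := hF.compact
  have := hF.totDisc
  have h1 : IsOpen {q : F × F | h (q.1 * q.2) = h q.1} := by
    have h2 : Continuous fun q : F × F => (h (q.1 * q.2), h q.1) :=
      (hh.comp (continuous_fst.mul continuous_snd)).prodMk (hh.comp continuous_fst)
    exact (isOpen_discrete (Set.diagonal (ZMod p))).preimage h2
  obtain ⟨U, W, hU, hW, hUu, hW1, hUW⟩ := generalized_tube_lemma (isCompact_univ (X := F))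
    (isCompact_singleton (x := (1 : F))) h1 (by
      rintro ⟨u, n⟩ ⟨-, hn⟩
      have hn1 : n = 1 := hn
      change h (u * n) = h u
      rw [hn1, mul_one])
  obtain ⟨H, hH⟩ := ProfiniteGrp.exist_openNormalSubgroup_sub_open_nhds_of_one hW
    (hW1 rfl)
  exact ⟨H.toSubgroup, ⟨inferInstance, H.isOpen'⟩, fun u n hn =>
    hUW (Set.mk_mem_prod (hUu (Set.mem_univ u)) (hH hn))⟩

/-- the closed ideal as a subspace -/
def idl (v : NC X (ZMod p)) : Submodule (ZMod p) (NC X (ZMod p)) where
  carrier := clIdeal v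
  zero_mem' := AddSubgroup.zero_mem _
  add_mem' := fun ha hb => AddSubgroup.add_mem _ ha hb
  smul_mem' := fun c a ha => by
    rw [NC.smul_eq_C_mul]
    exact mul_mem_clIdeal_left _ ha

theorem ser_mem (hF : IsFreeProP p ι) {μ : F →* NC X (ZMod p)} (hμ : IsMagnus p ι μ) (s : F)
    (α : (F → ZMod p) →ₗ[ZMod p] ZMod p) (hα : ∀ h ∈ V p (RN s), α h = 0) :
    ser μ α ∈ clIdeal (μ s - 1) := by
  classical
  by_contra hcon
  have hopen : IsOpen ((clIdeal (μ s - 1) : Set (NC X (ZMod p)))ᶜ) :=
    (isClosed_clIdeal _).isOpen_compl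
  obtain ⟨W, U, hWU, hsub⟩ := (isOpen_pi_iff (ι := List X) (A := fun _ => ZMod p)).1 hopen
    (ser μ α) hcon
  let R : NC X (ZMod p) →ₗ[ZMod p] (W → ZMod p) :=
    { toFun := fun a w => a w.1
      map_add' := fun _ _ => rfl
      map_smul' := fun _ _ => rfl }
  have hnot : R (ser μ α) ∉ (idl (μ s - 1)).map R := by
    rintro ⟨j, hj, hj2⟩
    have h1 : j ∈ (W : Set (List X)).pi U := by
      intro w hw
      have h2 : j w = ser μ α w := congrFun hj2 ⟨w, hw⟩
      rw [h2]
      exact (hWU w hw).2
    exact hsub h1 hj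
  obtain ⟨ν, hν, hν'⟩ := Submodule.exists_dual_map_eq_bot_of_notMem hnot inferInstance
  have hL0 : ∀ j ∈ clIdeal (μ s - 1), ν (R j) = 0 := by
    intro j hj
    have h1 : ν (R j) ∈ ((idl (μ s - 1)).map R).map ν := ⟨R j, ⟨j, hj, rfl⟩, rfl⟩
    rw [hν'] at h1
    exact h1
  have hW : ∀ a b : NC X (ZMod p), (∀ w ∈ W, a w = b w) → (ν.comp R) a = (ν.comp R) b := by
    intro a b hab
    change ν (R a) = ν (R b)
    congr 1
    funext w
    exact hab w.1 w.2
  have hcont : Continuous fun g => ν (R (μ g)) := by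
    have h1 : (fun g => ν (R (μ g))) = fun g => ∑ w ∈ W, μ g w * (ν.comp R) (mon w) := by
      funext g
      exact lin_eq (ν.comp R) W hW (μ g)
    rw [h1]
    refine continuous_finsetSum _ fun w _ => ?_
    exact ((NC.continuous_apply w).comp hμ.cont).mul continuous_const
  have hV : (fun g => ν (R (μ g))) ∈ V p (RN s) := by
    refine ⟨exists_on hF.isProP _ hcont, fun u b hb => ?_⟩
    have h1 : μ (u * b) = μ u + μ u * (μ b - 1) := by
      rw [map_mul, mul_sub, mul_one]
      abel
    change ν (R (μ (u * b))) = ν (R (μ u))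
    rw [h1, map_add, map_add,
      hL0 _ (mul_mem_clIdeal_left _ (mem_clIdeal_of_mem_RN hμ hb)), add_zero]
  apply hν
  have h2 := ser_lin μ α (ν.comp R) W hW
  change ν (R (ser μ α)) = α fun g => ν (R (μ g)) at h2
  rw [h2, hα _ hV]

theorem vanish_of_mem (hF : IsFreeProP p ι) {μ : F →* NC X (ZMod p)} (hμ : IsMagnus p ι μ) (s : F)
    (α : (F → ZMod p) →ₗ[ZMod p] ZMod p) (hα : ser μ α ∈ clIdeal (μ s - 1)) (h : F → ZMod p)
    (hh : h ∈ V p (RN s)) : α h = 0 := by
  classical
  obtain ⟨⟨N, ⟨hN, hNo⟩, hN1⟩, hC⟩ := hh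
  obtain ⟨E, -, W, hE, -, hW⟩ := exists_groupAlg_eval hF hμ N hNo
  let hb : F ⧸ N → ZMod p := Quotient.lift h (by
    intro a b hab
    have h1 : a⁻¹ * b ∈ N := QuotientGroup.leftRel_apply.1 hab
    have h2 := hN1 a _ h1
    rw [mul_inv_cancel_left] at h2
    exact h2.symm)
  let ℓ : MonoidAlgebra (ZMod p) (F ⧸ N) →ₗ[ZMod p] ZMod p :=
    (Finsupp.linearCombination (ZMod p) hb).comp
      (MonoidAlgebra.coeffLinearEquiv (ZMod p)).toLinearMap
  have hℓ : ∀ (q : F ⧸ N) (c : ZMod p), ℓ (MonoidAlgebra.single q c) = c * hb q := by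
    intro q c
    change Finsupp.linearCombination (ZMod p) hb (Finsupp.single q c) = _
    rw [Finsupp.linearCombination_single, smul_eq_mul]
  have hℓμ : ∀ g, ℓ (E (μ g)) = h g := by
    intro g
    rw [hE]
    change ℓ (MonoidAlgebra.single _ 1) = _
    rw [hℓ, one_mul]
    rfl
  have hkill : ∀ x y : MonoidAlgebra (ZMod p) (F ⧸ N), ℓ (x * E (μ s - 1) * y) = 0 := by
    intro x y
    induction x using MonoidAlgebra.induction_linear with
    | zero => rw [zero_mul, zero_mul, map_zero]
    | add a b ha hb => rw [add_mul, add_mul, map_add, ha, hb, add_zero]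
    | single q c =>
      induction y using MonoidAlgebra.induction_linear with
      | zero => rw [mul_zero, map_zero]
      | add a b ha hb => rw [mul_add, map_add, ha, hb, add_zero]
      | single q' c' =>
        obtain ⟨g, rfl⟩ := QuotientGroup.mk_surjective q
        obtain ⟨g', rfl⟩ := QuotientGroup.mk_surjective q'
        rw [map_sub, map_one, hE, mul_sub, mul_one, sub_mul, map_sub, sub_eq_zero]
        change ℓ (MonoidAlgebra.single _ _ * MonoidAlgebra.single _ 1 *
          MonoidAlgebra.single _ _) = _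
        rw [MonoidAlgebra.single_mul_single, MonoidAlgebra.single_mul_single,
          MonoidAlgebra.single_mul_single, hℓ, hℓ, mul_one]
        congr 1
        change h (g * s * g') = h (g * g')
        have h1 : g * s * g' = g * g' * (g'⁻¹ * s * g') := by group
        rw [h1]
        refine hC _ _ ?_
        have h2 : s ∈ RN s :=
          Subgroup.le_topologicalClosure _ (Subgroup.subset_normalClosure rfl)
        have h3 := (RN_normal s).conj_mem s h2 g'⁻¹
        rwa [inv_inv] at h3
  let L : NC X (ZMod p) →ₗ[ZMod p] ZMod p := ℓ.comp E.toLinearMap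
  have hWL : ∀ a b : NC X (ZMod p), (∀ w ∈ W, a w = b w) → L a = L b := by
    intro a b hab
    change ℓ (E a) = ℓ (E b)
    rw [hW a b hab]
  have hLcont : Continuous fun a => L a := by
    have h1 : (fun a => L a) = fun a : NC X (ZMod p) => ∑ w ∈ W, a w * L (mon w) := by
      funext a
      exact lin_eq L W hWL a
    rw [h1]
    refine continuous_finsetSum _ fun w _ => ?_
    exact (NC.continuous_apply w).mul continuous_const
  have hLkill : clIdeal (μ s - 1) ≤ L.toAddMonoidHom.ker := by
    refine clIdeal_le ?_ fun b c => ?_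
    · exact isClosed_singleton.preimage hLcont
    · change ℓ (E (b * (μ s - 1) * c)) = 0
      rw [map_mul E, map_mul E]
      exact hkill _ _
  have h4 := ser_lin μ α L W hWL
  have h5 : L (ser μ α) = 0 := hLkill hα
  have h6 : (fun g => L (μ g)) = h := by
    funext g
    exact hℓμ g
  rw [h6, h5] at h4
  exact h4.symm

theorem nozd_of_isPrimeCl (hF : IsFreeProP p ι) {μ : F →* NC X (ZMod p)} (hμ : IsMagnus p ι μ)
    (s : F) (hs : IsPrimeCl (μ s - 1)) : NoZD p (RN s) := by
  intro α β h
  have h1 : ser μ α * ser μ β ∈ clIdeal (μ s - 1) := by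
    rw [← ser_cnv]
    exact ser_mem hF hμ s (cnv α β) h
  rcases hs _ _ h1 with h2 | h2
  · exact Or.inl (vanish_of_mem hF hμ s α h2)
  · exact Or.inr (vanish_of_mem hF hμ s β h2)

end Pool.Agent.Helper34.PW
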