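import Pool.Agent.Helper34.PW.Lift

/-!
# The case where a conjugate of `s` is congruent modulo `R` to an element of the subgroup
-/

set_option autoImplicit false

namespace Pool.Agent.Helper34.PW

open Pool.Agent.Helper64.FS

universe u v

variable {F : Type u} [Group F] [TopologicalSpace F] [IsTopologicalGroup F] [CompactSpace F]
  [T2Space F] [TotallyDisconnectedSpace F]

omit [IsTopologicalGroup F] [CompactSpace F] [T2Space F] [TotallyDisconnectedSpace F] in
/-- `G b` is invariant under left translation by elements of `B`. -/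
theorem isX_left {B : Subgroup F} [B.Normal] {P : Type} [Group P] {G : F → F → P} (hG : IsX B G)
    (g a : F) {b : F} (hb : b ∈ B) : G g (b * a) = G g a := by
  have h1 : a⁻¹ * b * a ∈ B := by
    have := (inferInstance : B.Normal).conj_mem b hb a⁻¹
    rwa [inv_inv] at this
  have h2 := hG.inv g a _ h1
  rwa [show a * (a⁻¹ * b * a) = b * a by group] at h2

omit [CompactSpace F] [T2Space F] [TotallyDisconnectedSpace F] in
/-- On `B` the map `b ↦ G b a` is a homomorphism. -/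
theorem isX_mul {B : Subgroup F} [B.Normal] {P : Type} [Group P] {G : F → F → P} (hG : IsX B G)
    {b : F} (hb : b ∈ B) (g a : F) : G (b * g) a = G b a * G g a := by
  rw [hG.mul, isX_left hG g a (B.inv_mem hb)]

omit [IsTopologicalGroup F] [CompactSpace F] [T2Space F] [TotallyDisconnectedSpace F] in
theorem isX_one {B : Subgroup F} {P : Type} [Group P] {G : F → F → P} (hG : IsX B G)
    (a : F) : G 1 a = 1 := by
  have h := hG.mul 1 1 a
  rw [one_mul, inv_one, one_mul] at h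
  exact left_eq_mul.1 h

omit [CompactSpace F] [T2Space F] [TotallyDisconnectedSpace F] in
theorem isX_pow {B : Subgroup F} [B.Normal] {P : Type} [Group P] {G : F → F → P} (hG : IsX B G)
    {b : F} (hb : b ∈ B) (a : F) (n : ℕ) : G (b ^ n) a = G b a ^ n := by
  induction n with
  | zero => rw [pow_zero, pow_zero, isX_one hG]
  | succ n ih => rw [pow_succ', isX_mul hG hb, ih, pow_succ']

omit [CompactSpace F] [T2Space F] [TotallyDisconnectedSpace F] in
theorem isX_inv {B : Subgroup F} [B.Normal] {P : Type} [Group P] {G : F → F → P} (hG : IsX B G)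
    {b : F} (hb : b ∈ B) (a : F) : G b⁻¹ a = (G b a)⁻¹ := by
  have h := isX_mul hG hb b⁻¹ a
  rw [mul_inv_cancel, isX_one hG] at h
  exact eq_inv_of_mul_eq_one_right h.symm

omit [CompactSpace F] [T2Space F] [TotallyDisconnectedSpace F] in
/-- For commutative `P`: conjugation translates the argument. -/
theorem isX_conj {B : Subgroup F} [B.Normal] {P : Type} [CommGroup P] {G : F → F → P}
    (hG : IsX B G) {b : F} (hb : b ∈ B) (g a : F) : G (g * b * g⁻¹) a = G b (g⁻¹ * a) := by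
  have h1 : G g a * G g⁻¹ (g⁻¹ * a) = 1 := by
    rw [← hG.mul, mul_inv_cancel, isX_one hG]
  rw [mul_assoc, hG.mul, isX_mul hG hb, mul_comm (G b (g⁻¹ * a)), ← mul_assoc, h1, one_mul]

/-- If `τ` is congruent to a conjugate of `s` modulo `R = (s ^ p ^ j)^F`, then `τ ^ p ^ j` is
associated to `s ^ p ^ j`. -/
theorem ncl_pow {p : ℕ} [Fact p.Prime] {X : Type v} {ι : X → F} (hF : IsFree p ι)
    (T : Subgroup F) [T.Normal] (hTc : IsClosed (T : Set F)) {s : F} (hs : s ∈ T)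
    (hS : ∀ f ∈ V p T, ∃ G : F → F → Multiplicative (ZMod p), IsX T G ∧
      ∀ a, G s a = Multiplicative.ofAdd (f a)) {j : ℕ} (hj : 1 ≤ j) {a₀ ρ : F}
    (hρ : ρ ∈ ncl (s ^ p ^ j)) :
    ncl ((a₀ * s * a₀⁻¹ * ρ) ^ p ^ j) = ncl (s ^ p ^ j) := by
  have hp := hF.pindex
  have hpp : p.Prime := Fact.out
  set r := s ^ p ^ j with hr
  set τ := a₀ * s * a₀⁻¹ * ρ with hτ
  have hRn : (ncl r).Normal := ncl_normal r
  have hrT : r ∈ T := T.pow_mem hs _
  have hRT : ncl r ≤ T := ncl_le inferInstance hTc hrT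
  have hconjT : ∀ g, ∀ b ∈ T, g * b * g⁻¹ ∈ T := fun g b hb =>
    (inferInstance : T.Normal).conj_mem b hb g
  have hτT : τ ∈ T := T.mul_mem (hconjT _ _ hs) (hRT hρ)
  -- `τ ^ q ∈ R`
  have hτR : τ ^ p ^ j ∈ ncl r := by
    have h1 : (QuotientGroup.mk τ : F ⧸ ncl r) = QuotientGroup.mk (a₀ * s * a₀⁻¹) := by
      rw [hτ, QuotientGroup.mk_mul, (QuotientGroup.eq_one_iff ρ).2 hρ, mul_one]
    rw [← QuotientGroup.eq_one_iff, QuotientGroup.mk_pow, h1, ← QuotientGroup.mk_pow,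
      QuotientGroup.eq_one_iff, conj_pow]
    exact hRn.conj_mem _ (mem_ncl r) a₀
  refine ncl_eq_of_not_mem_fratF (p := p) hp hτR ?_
  -- the crossed homomorphism
  have : NeZero (p ^ (j + 1)) := ⟨(pow_pos hpp.pos _).ne'⟩
  have hfin : Finite (Multiplicative (ZMod (p ^ (j + 1)))) :=
    Finite.of_equiv (ZMod (p ^ (j + 1))) Multiplicative.ofAdd
  have hP : IsPGroup p (Multiplicative (ZMod (p ^ (j + 1)))) := by
    apply IsPGroup.of_card (n := j + 1)
    rw [Nat.card_congr Multiplicative.toAdd, Nat.card_zmod]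
  let c : Multiplicative (ZMod (p ^ (j + 1))) := Multiplicative.ofAdd 1
  have hc : ∀ n : ℕ, c ^ n = 1 ↔ p ^ (j + 1) ∣ n := by
    intro n
    have h1 : c ^ n = Multiplicative.ofAdd (n : ZMod (p ^ (j + 1))) := by
      rw [← ofAdd_nsmul]
      simp
    rw [h1, ofAdd_eq_one, ZMod.natCast_eq_zero_iff]
  obtain ⟨G, hG, -, hGs⟩ := lift_s hF T s hS (Multiplicative (ZMod (p ^ (j + 1)))) hP Unit 1
    (fun _ => ⟨1, rfl⟩) (fun _ _ => 1)
    ⟨fun _ _ _ => rfl, fun _ _ _ _ => rfl, ⟨⊤, ON_top, fun _ _ _ _ => rfl, fun _ _ _ => rfl⟩⟩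
    (fun _ => c) (lcf_const c) (fun _ => rfl)
  have hGr : ∀ a, G r a = c ^ p ^ j := fun a => by rw [hr, isX_pow hG hs, hGs]
  obtain ⟨N, hN, -, hN1⟩ := hG.cont
  -- on `R` the values are constant and killed by `p`
  let S₁ : Subgroup F :=
    { carrier := {b | b ∈ T ∧ ∃ d : Multiplicative (ZMod (p ^ (j + 1))), d ^ p = 1 ∧
        ∀ a, G b a = d}
      one_mem' := ⟨T.one_mem, 1, one_pow _, fun a => isX_one hG a⟩
      mul_mem' := by
        rintro b b' ⟨hb, d, hd, h⟩ ⟨hb', d', hd', h'⟩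
        exact ⟨T.mul_mem hb hb', d * d', by rw [mul_pow, hd, hd', one_mul],
          fun a => by rw [isX_mul hG hb, h, h']⟩
      inv_mem' := by
        rintro b ⟨hb, d, hd, h⟩
        exact ⟨T.inv_mem hb, d⁻¹, by rw [inv_pow, hd, inv_one], fun a => by
          rw [isX_inv hG hb, h]⟩ }
  have hclosed : ∀ S : Subgroup F, (∀ b, b ∈ T → b ∈ N → b ∈ S) → S ≤ T →
      IsClosed (S : Set F) := by
    intro S h1 h2
    have hNn := hN.1
    have h3 : S = T ⊓ (S ⊔ N) := by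
      apply le_antisymm
      · intro b hb
        exact ⟨h2 hb, Subgroup.mem_sup_left hb⟩
      · rintro b ⟨hb, hb'⟩
        obtain ⟨b₁, hb₁, n, hn, rfl⟩ := Subgroup.mem_sup_of_normal_right.1 hb'
        have hnT : n ∈ T := by
          have h4 := T.mul_mem (T.inv_mem (h2 hb₁)) hb
          rwa [inv_mul_cancel_left] at h4
        exact S.mul_mem hb₁ (h1 n hnT hn)
    rw [h3, Subgroup.coe_inf]
    exact hTc.inter (isClosed_of_ON_le hN le_sup_right)
  have hRS₁ : ncl r ≤ S₁ := by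
    refine ncl_le ⟨?_⟩ (hclosed S₁ ?_ fun b hb => hb.1) ⟨hrT, c ^ p ^ j, ?_, hGr⟩
    · rintro b ⟨hb, d, hd, h⟩ g
      exact ⟨hconjT g b hb, d, hd, fun a => by rw [isX_conj hG hb, h]⟩
    · intro b hb hbN
      exact ⟨hb, 1, one_pow _, fun a => hN1 b hbN a⟩
    · rw [← pow_mul, hc, ← pow_succ]
  let S₂ : Subgroup F :=
    { carrier := {b | b ∈ T ∧ ∀ a, G b a = 1}
      one_mem' := ⟨T.one_mem, fun a => isX_one hG a⟩
      mul_mem' := by
        rintro b b' ⟨hb, h⟩ ⟨hb', h'⟩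
        exact ⟨T.mul_mem hb hb', fun a => by rw [isX_mul hG hb, h, h', one_mul]⟩
      inv_mem' := by
        rintro b ⟨hb, h⟩
        exact ⟨T.inv_mem hb, fun a => by rw [isX_inv hG hb, h, inv_one]⟩ }
  have hΦS₂ : fratF p (ncl r) ≤ S₂ := by
    refine fratF_le (hclosed S₂ (fun b hb hbN => ⟨hb, fun a => hN1 b hbN a⟩) fun b hb => hb.1)
      ?_ ?_
    · intro b hb g
      obtain ⟨hbT, d, hd, h⟩ := hRS₁ hb
      have h1 : g * b⁻¹ * g⁻¹ ∈ T := hconjT g _ (T.inv_mem hbT)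
      have e : b * g * b⁻¹ * g⁻¹ = b * (g * b⁻¹ * g⁻¹) := by group
      rw [e]
      exact ⟨T.mul_mem hbT h1, fun a => by
        rw [isX_mul hG hbT, h, isX_conj hG (T.inv_mem hbT), isX_inv hG hbT, h, mul_inv_cancel]⟩
    · intro b hb
      obtain ⟨hbT, d, hd, h⟩ := hRS₁ hb
      exact ⟨T.pow_mem hbT _, fun a => by rw [isX_pow hG hbT, h, hd]⟩
  intro hcon
  have h1 : G (τ ^ p ^ j) 1 = 1 := (hΦS₂ hcon).2 1
  obtain ⟨-, d, hd, hGρ⟩ := hRS₁ hρ
  have h2 : G τ 1 = c * d := by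
    rw [hτ, isX_mul hG (hconjT _ _ hs), isX_conj hG hs, hGs, hGρ]
  have h3 : d ^ p ^ j = 1 := by
    obtain ⟨m, hm⟩ : p ∣ p ^ j := dvd_pow_self p (by omega)
    have h4 : d ^ (p * m) = 1 := by rw [pow_mul, hd, one_pow]
    rwa [← hm] at h4
  rw [isX_pow hG hτT, h2, mul_pow, h3, mul_one, hc] at h1
  have h4 := Nat.le_of_dvd (pow_pos hpp.pos j) h1
  have h5 : p ^ j < p ^ (j + 1) := Nat.pow_lt_pow_right hpp.one_lt (Nat.lt_succ_self j)
  omega

end Pool.Agent.Helper34.PW
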