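import Pool.Agent.Helper34.PW.Wreath

/-!
# The case where no conjugate of `s` is congruent modulo `R` to an element of the subgroup
-/

set_option autoImplicit false

namespace Pool.Agent.Helper34.PW

open Pool.Agent.Helper64.FS

universe u v

variable {F : Type u} [Group F] [TopologicalSpace F] [IsTopologicalGroup F] [CompactSpace F]
  [T2Space F] [TotallyDisconnectedSpace F]

/-- Crossed homomorphisms with values in `(Ω → P) ⋊ Q`, with `Q`-component `π`, with prescribed
coordinates at `ω₀` on the basis elements `≠ x`, and with values at `s` conjugate to `(1; π s)`. -/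
theorem wreath_lift {p : ℕ} [Fact p.Prime] {X : Type v} {ι : X → F} (hF : IsFree p ι)
    (T : Subgroup F) [T.Normal] (s : F)
    (hS : ∀ f ∈ V p T, ∃ G : F → F → Multiplicative (ZMod p), IsX T G ∧
      ∀ a, G s a = Multiplicative.ofAdd (f a))
    (Q : Type) [Group Q] [Finite Q] (hQ : IsPGroup p Q) (π : F →* Q)
    (hπ : IsOpen (π.ker : Set F)) (Ω : Type) [Finite Ω] [MulAction Q Ω] (ω₀ : Ω)
    (κ : Ω → ZMod p) (hκ : ∀ ω, κ (π s • ω) = κ ω + 1) (x : X) :
    ∀ (P : Type) [Group P] [Finite P], IsPGroup p P → ∀ θ : F →* P, IsOpen (θ.ker : Set F) →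
      ∃ G : F → F → Wr Q Ω P, IsX T G ∧ (∀ g a, (G g a).right = π g) ∧
        (∀ z, z ≠ x → ∀ a, (G (ι z) a).left ω₀ = θ (ι z)) ∧
        ∀ a, ∃ u : Ω → P, G s a = cj (π s) u := by
  classical
  intro P0 _ _ hP0 θ0 hθ0
  have main : ∀ (n : ℕ) (P : Type) [Group P] [Finite P], Nat.card P = n → IsPGroup p P →
      ∀ θ : F →* P, IsOpen (θ.ker : Set F) →
      ∃ G : F → F → Wr Q Ω P, IsX T G ∧ (∀ g a, (G g a).right = π g) ∧
        (∀ z, z ≠ x → ∀ a, (G (ι z) a).left ω₀ = θ (ι z)) ∧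
        ∀ a, ∃ u : Ω → P, G s a = cj (π s) u := by
    intro n
    induction n using Nat.strong_induction_on with
    | _ n ih =>
    intro P _ _ hcard hP θ hθ
    rcases subsingleton_or_nontrivial P with hsub | hnt
    · refine ⟨fun g _ => SemidirectProduct.inr (π g), ⟨fun g g' a => ?_, fun _ _ _ _ => rfl,
        ⟨π.ker, ⟨inferInstance, hπ⟩, fun _ _ _ _ => rfl, fun n hn a => ?_⟩⟩,
        fun g a => SemidirectProduct.right_inr _, fun z _ a => Subsingleton.elim _ _,
        fun a => ⟨1, ?_⟩⟩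
      · rw [map_mul, map_mul]
      · rw [MonoidHom.mem_ker.1 hn, map_one]
      · rw [cj_eq, map_one, one_mul, inv_one, mul_one]
    · obtain ⟨c, -, hco, hcc⟩ := exists_central hP (⊤ : Subgroup P) bot_ne_top.symm
      let Z : Subgroup P := Subgroup.zpowers c
      have hZc : Z ≤ Subgroup.center P := by
        rw [Subgroup.zpowers_le]; exact hcc
      have hZn : Z.Normal := by
        constructor
        intro y hy g
        have := Subgroup.mem_center_iff.1 (hZc hy) g
        rw [this, mul_assoc, mul_inv_cancel, mul_one]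
        exact hy
      have hlt : Nat.card (P ⧸ Z) < n := by
        rw [← hcard]
        have h1 := Subgroup.card_eq_card_quotient_mul_card_subgroup Z
        have h2 : Nat.card Z = p := by
          show Nat.card (Subgroup.zpowers c) = p
          rw [Nat.card_zpowers, hco]
        have h3 : 0 < Nat.card (P ⧸ Z) := Nat.card_pos
        have h4 := (Fact.out : p.Prime).two_le
        rw [h1, h2]
        nlinarith
      let mk : P →* P ⧸ Z := QuotientGroup.mk' Z
      have hmks : Function.Surjective mk := QuotientGroup.mk'_surjective Z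
      have hker : IsOpen ((mk.comp θ).ker : Set F) := by
        apply Subgroup.isOpen_mono (H₁ := θ.ker) _ hθ
        intro y hy
        rw [MonoidHom.mem_ker] at hy ⊢
        rw [MonoidHom.comp_apply, hy, map_one]
      obtain ⟨G', hG', hG'π, hG'θ, hG's⟩ := ih _ hlt (P ⧸ Z) rfl (hP.to_quotient Z)
        (mk.comp θ) hker
      -- lift of the value at `s`
      choose σ hσ using hmks
      let U : Wr Q Ω (P ⧸ Z) → (Ω → P ⧸ Z) := fun w =>
        if h : ∃ u : Ω → P ⧸ Z, w = cj (π s) u then h.choose else 1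
      have hU : ∀ a, cj (π s) (U (G' s a)) = G' s a := by
        intro a
        show cj (π s) (if h : ∃ u : Ω → P ⧸ Z, G' s a = cj (π s) u then h.choose else 1) = _
        rw [dif_pos (hG's a)]
        exact (hG's a).choose_spec.symm
      let f : F → Wr Q Ω P := fun a => cj (π s) (fun ω => σ (U (G' s a) ω))
      have hf : LCf T f := lcf_comp (hG'.lc s) (fun w => cj (π s) (fun ω => σ (U w ω)))
      have hfG : ∀ a, wrMap mk (f a) = G' s a := by
        intro a
        show wrMap mk (cj (π s) (fun ω => σ (U (G' s a) ω))) = _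
        rw [wrMap_cj]
        simp only [hσ]
        exact hU a
      obtain ⟨G₁, hG₁, hG₁', hG₁s⟩ := lift_s hF T s hS (Wr Q Ω P) (wr_isPGroup hQ hP)
        (Wr Q Ω (P ⧸ Z)) (wrMap mk) (wrMap_surjective mk (QuotientGroup.mk'_surjective Z)) G' hG'
        f hf hfG
      have hG₁π : ∀ g a, (G₁ g a).right = π g := by
        intro g a
        rw [← hG'π g a, ← hG₁' g a, wrMap_right]
      -- the correction
      have hZ : ∀ z, z ≠ x → ∀ a, ((G₁ (ι z) a).left ω₀)⁻¹ * θ (ι z) ∈ Z := by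
        intro z hz a
        have h1 : mk (((G₁ (ι z) a).left ω₀)⁻¹ * θ (ι z)) = 1 := by
          rw [map_mul, map_inv, ← wrMap_left mk (G₁ (ι z) a) ω₀, hG₁', hG'θ z hz a,
            MonoidHom.comp_apply, inv_mul_cancel]
        rwa [← MonoidHom.mem_ker, QuotientGroup.ker_mk'] at h1
      obtain ⟨e, lg, heZ, hlg1, hlg⟩ := exists_log hco
      have hPp : IsPGroup p (Multiplicative (ZMod p)) := by
        refine IsPGroup.of_card (n := 1) ?_
        rw [Nat.card_congr Multiplicative.toAdd, Nat.card_zmod, pow_one]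
      obtain ⟨N₁, hN₁, -, hN₁1⟩ := hG₁.cont
      have hfin : {z | (fun a => if z = x then (1 : Multiplicative (ZMod p)) else
          lg (((G₁ (ι z) a).left ω₀)⁻¹ * θ (ι z))) ≠ (1 : F → Multiplicative (ZMod p))}.Finite := by
        refine (hF.conv (N₁ ⊓ θ.ker) (hN₁.inf ⟨inferInstance, hθ⟩)).subset fun z hz hz' => hz ?_
        funext a
        show (if z = x then (1 : Multiplicative (ZMod p)) else
          lg (((G₁ (ι z) a).left ω₀)⁻¹ * θ (ι z))) = 1
        rw [hN₁1 _ hz'.1, MonoidHom.mem_ker.1 hz'.2, SemidirectProduct.one_left, Pi.one_apply,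
          inv_one, one_mul, hlg1, ite_self]
      obtain ⟨H, hH, hHι⟩ := exists_X hF T hPp (fun z a => if z = x then 1 else
          lg (((G₁ (ι z) a).left ω₀)⁻¹ * θ (ι z))) hfin (fun z =>
          lcf_comp (hG₁.lc (ι z)) (fun w => if z = x then 1 else lg ((w.left ω₀)⁻¹ * θ (ι z))))
      have hec : ∀ k, e k ∈ Subgroup.center P := fun k => hZc (heZ k)
      refine ⟨fun g a => G₁ g a * diag e (H g a), hG₁.mul_central (hH.map (diag e)) ?_, ?_, ?_, ?_⟩
      · intro g a
        exact diag_center e hec _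
      · intro g a
        show (G₁ g a * diag e (H g a)).right = π g
        rw [SemidirectProduct.mul_right, diag_right, mul_one, hG₁π]
      · intro z hz a
        show (G₁ (ι z) a * diag e (H (ι z) a)).left ω₀ = θ (ι z)
        rw [wr_mul_left, diag_left, hHι z]
        simp only [if_neg hz]
        rw [hlg _ (hZ z hz a), mul_inv_cancel_left]
      · intro a
        show ∃ u : Ω → P, G₁ s a * diag e (H s a) = cj (π s) u
        rw [hG₁s a]
        exact cj_mul_diag hκ e hec _ _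
  exact main _ P0 rfl hP0 θ0 hθ0

/-- The coordinate at `ω₀` on the closed subgroup generated by the basis elements `≠ x`. -/
theorem coord {X : Type v} {ι : X → F} (Y : Set X)
    (T : Subgroup F) [T.Normal] {Q : Type} [Group Q] (π : F →* Q)
    (hπ : IsOpen (π.ker : Set F)) {Ω : Type} [MulAction Q Ω] (ω₀ : Ω)
    {P : Type} [Group P] (θ : F →* P) (hθ : IsOpen (θ.ker : Set F)) {G : F → F → Wr Q Ω P}
    (hG : IsX T G) (hGπ : ∀ g a, (G g a).right = π g)
    (hGθ : ∀ z ∈ Y, ∀ a, (G (ι z) a).left ω₀ = θ (ι z)) (hfix : ∀ z ∈ Y, π (ι z) • ω₀ = ω₀) :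
    ∀ w ∈ clS ι Y, ∀ a, (G w a).left ω₀ = θ w := by
  let S : Subgroup F :=
    { carrier := {g | π g • ω₀ = ω₀ ∧ ∀ a, (G g a).left ω₀ = θ g}
      one_mem' := by
        refine ⟨by rw [map_one, one_smul], fun a => ?_⟩
        rw [isX_one hG, map_one]
        rfl
      mul_mem' := by
        rintro g g' ⟨h1, h2⟩ ⟨h1', h2'⟩
        refine ⟨by rw [map_mul, mul_smul, h1', h1], fun a => ?_⟩
        have h3 : (π g)⁻¹ • ω₀ = ω₀ := inv_smul_eq_iff.2 h1.symm
        rw [hG.mul, wr_mul_left, hGπ, h3, h2, h2', map_mul]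
      inv_mem' := by
        rintro g ⟨h1, h2⟩
        have h3 : (π g)⁻¹ • ω₀ = ω₀ := inv_smul_eq_iff.2 h1.symm
        refine ⟨by rw [map_inv, h3], fun a => ?_⟩
        have h4 := hG.mul g g⁻¹ (g * a)
        rw [mul_inv_cancel, isX_one hG, inv_mul_cancel_left] at h4
        have h5 := congrArg (fun w : Wr Q Ω P => w.left ω₀) h4
        rw [wr_mul_left, hGπ, h3, h2, SemidirectProduct.one_left, Pi.one_apply] at h5
        rw [map_inv]
        exact eq_inv_of_mul_eq_one_right h5.symm }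
  obtain ⟨N, hN, -, hN1⟩ := hG.cont
  have hle : N ⊓ (π.ker ⊓ θ.ker) ≤ S := by
    intro g hg
    refine ⟨?_, fun a => ?_⟩
    · rw [MonoidHom.mem_ker.1 hg.2.1, one_smul]
    · rw [hN1 _ hg.1, MonoidHom.mem_ker.1 hg.2.2]
      rfl
  have hcl : IsClosed (S : Set F) := by
    refine isClosed_of_ON_le (hN.inf (ON.inf ⟨inferInstance, hπ⟩ ⟨inferInstance, hθ⟩)) hle
  have hS : clS ι Y ≤ S := clS_le hcl fun z hz => ⟨hfix z hz, hGθ z hz⟩
  intro w hw
  exact (hS hw).2

/-- Compactness: if no conjugate of `s` lies in the closed subgroup `C`, then there is an open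
normal subgroup `N` such that no conjugate of `s` lies in `C N`. -/
theorem exists_ON_conj {C : Subgroup F} (hC : IsClosed (C : Set F)) (s : F)
    (h : ∀ a, a * s * a⁻¹ ∉ C) : ∃ N : Subgroup F, ON N ∧ ∀ a, a * s * a⁻¹ ∉ C ⊔ N := by
  by_contra hcon
  push Not at hcon
  let I := {N : Subgroup F // ON N}
  let t : I → Set F := fun N => (fun a : F => a * s * a⁻¹) ⁻¹' ((C ⊔ N.1 : Subgroup F) : Set F)
  have hne : Nonempty I := ⟨⟨⊤, ON_top⟩⟩
  have hcl : ∀ i, IsClosed (t i) := fun i =>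
    (isClosed_of_ON_le i.2 le_sup_right).preimage (by fun_prop)
  have hn : (⋂ i, t i).Nonempty := by
    apply IsCompact.nonempty_iInter_of_directed_nonempty_isCompact_isClosed t
    · intro N M
      refine ⟨⟨N.1 ⊓ M.1, N.2.inf M.2⟩, ?_, ?_⟩
      · exact Set.preimage_mono (sup_le_sup_left inf_le_left C)
      · exact Set.preimage_mono (sup_le_sup_left inf_le_right C)
    · intro N
      exact hcon N.1 N.2
    · intro i
      exact (hcl i).isCompact
    · exact hcl
  obtain ⟨a, ha⟩ := hn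
  rw [Set.mem_iInter] at ha
  obtain ⟨N, hN, haN⟩ := exists_ON_not_mem hC (h a)
  exact haN (ha ⟨N, hN⟩)

/-- The product of a closed subgroup and a closed normal subgroup is closed. -/
theorem isClosed_sup {A B : Subgroup F} (hA : IsClosed (A : Set F)) (hB : IsClosed (B : Set F))
    (hBn : B.Normal) : IsClosed ((A ⊔ B : Subgroup F) : Set F) := by
  rw [Subgroup.mul_normal]
  exact (hA.isCompact.mul hB.isCompact).isClosed

/-- If no conjugate of `s` is congruent modulo `R = (s ^ p ^ j)^F` to an element of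
`Y = F(X \ {x})`, then `Y ∩ R = 1`. -/
theorem inf_eq_bot {p : ℕ} [Fact p.Prime] {X : Type v} {ι : X → F} (hF : IsFree p ι)
    (T : Subgroup F) [T.Normal] (hTc : IsClosed (T : Set F)) {s : F} (hs : s ∈ T)
    (hS : ∀ f ∈ V p T, ∃ G : F → F → Multiplicative (ZMod p), IsX T G ∧
      ∀ a, G s a = Multiplicative.ofAdd (f a)) (j : ℕ) (x : X)
    (hno : ∀ a, a * s * a⁻¹ ∉ clS ι {x}ᶜ ⊔ ncl (s ^ p ^ j)) :
    clS ι {x}ᶜ ⊓ ncl (s ^ p ^ j) = ⊥ := by
  have hp := hF.pindex
  have hpp : p.Prime := Fact.out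
  set r := s ^ p ^ j with hr
  set Y := clS ι {x}ᶜ with hY
  have hRn : (ncl r).Normal := ncl_normal r
  have hrT : r ∈ T := T.pow_mem hs _
  obtain ⟨K, hK, hKs⟩ := exists_ON_conj (isClosed_sup (clS_closed ι {x}ᶜ) (ncl_closed r) hRn) s hno
  have hM : ON (ncl r ⊔ K) := ON.sup hRn hK
  obtain ⟨Q₀, _, _, π₀, hQ₀, hπ₀⟩ := exists_type_quot hp hM
  -- make `π` surjective
  let π : F →* π₀.range := π₀.rangeRestrict
  have hπs : Function.Surjective π := π₀.rangeRestrict_surjective
  have hker : π.ker = ncl r ⊔ K := by rw [← hπ₀]; exact π₀.ker_rangeRestrict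
  have hQ : IsPGroup p π₀.range := hQ₀.to_subgroup _
  have hπo : IsOpen (π.ker : Set F) := by rw [hker]; exact hM.2
  let L : Subgroup π₀.range := Y.map π
  have hLs : ∀ q : π₀.range, q * π s * q⁻¹ ∉ L := by
    intro q hq
    obtain ⟨a, rfl⟩ := hπs q
    obtain ⟨y, hy, hya⟩ := hq
    apply hKs a
    rw [sup_assoc]
    have h1 : y⁻¹ * (a * s * a⁻¹) ∈ ncl r ⊔ K := by
      rw [← hker, MonoidHom.mem_ker, map_mul, map_inv, hya, map_mul, map_mul, map_inv,
        inv_mul_cancel]
    have h2 : a * s * a⁻¹ = y * (y⁻¹ * (a * s * a⁻¹)) := by group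
    rw [h2]
    exact Subgroup.mul_mem_sup hy h1
  have hσ : (π s) ^ p ^ j = 1 := by
    rw [← map_pow, ← MonoidHom.mem_ker, hker]
    exact Subgroup.mem_sup_left (mem_ncl r)
  have hfix : ∀ ω : π₀.range ⧸ L, π s • ω ≠ ω := by
    intro ω h
    obtain ⟨q, rfl⟩ := QuotientGroup.mk_surjective ω
    have h1 : (QuotientGroup.mk q : π₀.range ⧸ L) = QuotientGroup.mk (π s * q) := h.symm
    have h2 := QuotientGroup.eq.1 h1
    apply hLs q⁻¹
    rw [inv_inv, mul_assoc]
    exact h2
  obtain ⟨κ, hκ⟩ := exists_kap (p := p) (π s) j hσ hfix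
  rw [eq_bot_iff]
  intro w hw
  by_contra hw1
  have hbot : IsClosed ((⊥ : Subgroup F) : Set F) := by
    rw [Subgroup.coe_bot]
    exact isClosed_singleton
  obtain ⟨M, hM, hwM⟩ := exists_ON_not_mem hbot hw1
  rw [bot_sup_eq] at hwM
  obtain ⟨P, _, _, θ, hP, hθ⟩ := exists_type_quot hp hM
  have hθo : IsOpen (θ.ker : Set F) := by rw [hθ]; exact hM.2
  obtain ⟨G, hG, hGπ, hGθ, hGs⟩ := wreath_lift hF T s hS π₀.range hQ π hπo (π₀.range ⧸ L)
    ((1 : π₀.range) : π₀.range ⧸ L) κ hκ x P hP θ hθo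
  have hGr : ∀ a, G r a = 1 := by
    intro a
    obtain ⟨u, hu⟩ := hGs a
    rw [hr, isX_pow hG hs, hu, cj_pow _ _ hσ]
  have h1 : G w 1 = 1 := IsX.ker hTc hG hrT hGr w hw.2 1
  have h2 : (G w 1).left ((1 : π₀.range) : π₀.range ⧸ L) = θ w := by
    refine coord {x}ᶜ T π hπo _ θ hθo hG hGπ (fun z hz => hGθ z (by simpa using hz)) ?_ w hw.1 1
    intro z hz
    show QuotientGroup.mk (π (ι z) * 1) = QuotientGroup.mk 1
    rw [QuotientGroup.eq, mul_one, mul_one]
    exact L.inv_mem ⟨ι z, mem_clS ι hz, rfl⟩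
  apply hwM
  rw [← hθ, MonoidHom.mem_ker, ← h2, h1]
  rfl

/-- The Freiheitssatz for powers of an element with free relation module. -/
theorem freiheit_pow {p : ℕ} [Fact p.Prime] {X : Type v} {ι : X → F} (hF : IsFree p ι)
    (T : Subgroup F) [T.Normal] (hTc : IsClosed (T : Set F)) {s : F} (hs : s ∈ T)
    (hS : ∀ f ∈ V p T, ∃ G : F → F → Multiplicative (ZMod p), IsX T G ∧
      ∀ a, G s a = Multiplicative.ofAdd (f a)) {j : ℕ} (hj : 1 ≤ j) (x : X)
    (hno : ∀ t ∈ clS ι {x}ᶜ, ncl t ≠ ncl (s ^ p ^ j)) :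
    clS ι {x}ᶜ ⊓ ncl (s ^ p ^ j) = ⊥ := by
  refine inf_eq_bot hF T hTc hs hS j x fun a₀ ha₀ => ?_
  have hRn : (ncl (s ^ p ^ j)).Normal := ncl_normal _
  obtain ⟨τ, hτ, ρ, hρ, h⟩ := Subgroup.mem_sup_of_normal_right.1 ha₀
  have h1 : τ = a₀ * s * a₀⁻¹ * ρ⁻¹ := by rw [← h, mul_inv_cancel_right]
  refine hno (τ ^ p ^ j) (Subgroup.pow_mem _ hτ _) ?_
  rw [h1]
  exact ncl_pow hF T hTc hs hS hj ((ncl _).inv_mem hρ)

end Pool.Agent.Helper34.PW
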