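import Pool.Agent.Helper34.PW.Bridge

/-!
# The Freiheitssatz for powers of elements of depth prime to `p`
-/

set_option autoImplicit false

namespace Pool.Agent.Helper34.PW

open Pool.Agent.Helper85.PF
open Pool.Agent.Helper64.FS (clS ncl clS_eq_FY ncl_eq_RN isFree_of_PF good_of_nozd ncl_normal NoZD)

universe u

theorem q1_pow {p : ℕ} [Fact p.Prime] {X F : Type u} [Group F] [TopologicalSpace F]
    [IsTopologicalGroup F] {ι : X → F} (hF : IsFreeProP p ι) (s : F) (hs : NoZD p (RN s)) (j : ℕ)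
    (hj : 1 ≤ j) (r : F) (hr : RN r = RN (s ^ p ^ j)) : Q1 ι r := by
  have := hF.isProP.compact
  have := hF.isProP.totDisc
  have : T2Space F := inferInstance
  intro X' hX' x hx
  have hF' := isFree_of_PF hF
  have key : clS ι {x}ᶜ ⊓ ncl r = ⊥ := by
    by_cases hs1 : s = 1
    · exfalso
      rw [hs1, one_pow] at hr
      exact freiheit_one hr hX' hx
    · have hn : (ncl s).Normal := ncl_normal s
      exact freiheit hF' (freeRel_of_good hF' hs1 (good_of_nozd (ncl s) hs)) hj hr hX' hx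
  rw [clS_eq_FY, ncl_eq_RN] at key
  intro a b hab
  have h1 : ((a : F)⁻¹ * (b : F)) ∈ RN r := by
    have h2 : QuotientGroup.mk' (RN r) (a : F) = QuotientGroup.mk' (RN r) (b : F) := hab
    exact (QuotientGroup.eq).mp h2
  have h3 : ((a : F)⁻¹ * (b : F)) ∈ FY ι {x}ᶜ ⊓ RN r :=
    ⟨Subgroup.mul_mem _ (Subgroup.inv_mem _ a.2) b.2, h1⟩
  rw [key, Subgroup.mem_bot] at h3
  exact Subtype.ext (inv_mul_eq_one.mp h3)

theorem depth_main {p : ℕ} [Fact p.Prime] {X Z F : Type u} [Group F] [TopologicalSpace F]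
    [IsTopologicalGroup F] {ι : X → F} {κ : Z → F} (hF : IsFreeProP p ι) (hF' : IsFreeProP p κ)
    {ν : F →* NC Z (ZMod p)} (hν : IsMagnus p κ ν) (r s : F) (j : ℕ)
    (hr : RN r = RN (s ^ p ^ j)) (wt : Z → ℕ) (hwt : ∀ z, 0 < wt z) (n : ℕ)
    (hd : IsDepth wt (ν s) n) (hn : ¬ p ∣ n) : Q1 ι r := by
  rcases Nat.eq_zero_or_pos j with rfl | hj
  · rw [pow_zero, pow_one] at hr
    exact main_theorem hF hF' hν r s hr.symm wt hwt n hd (Or.inl hn)
  · exact q1_pow hF s (nozd_of_isPrimeCl hF' hν s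
      (isPrimeCl_of_lie hF' hν s wt hwt n hd (Or.inl hn))) j hj r hr

end Pool.Agent.Helper34.PW
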