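import Pool.Agent.Helper64.FS.Defs
import Pool.Agent.Helper64.FS.A1
import Pool.Agent.Helper64.FS.A2
import Pool.Agent.Helper64.FS.A4
import Pool.Agent.Helper64.FS.A5
import Pool.Agent.Helper64.FS.B1
import Pool.Agent.Helper64.FS.B2
import Pool.Agent.Helper64.FS.B3

/-!
# Lifting crossed homomorphisms with prescribed value at `s`
-/

set_option autoImplicit false

namespace Pool.Agent.Helper34.PW

open Pool.Agent.Helper64.FS

universe u v

/-- A non-trivial normal subgroup of a finite `p`-group contains a central element of order `p`. -/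
theorem exists_central {p : ℕ} [Fact p.Prime] {Q : Type*} [Group Q] [Finite Q]
    (hQ : IsPGroup p Q) (M : Subgroup Q) [M.Normal] (hM : M ≠ ⊥) :
    ∃ c ∈ M, orderOf c = p ∧ c ∈ Subgroup.center Q := by
  have hp := (Fact.out : p.Prime)
  have hMp : IsPGroup p M := hQ.to_subgroup _
  have hdvd : p ∣ Nat.card M := by
    rcases hMp.card_eq_or_dvd with h | h
    · exact absurd (Subgroup.card_eq_one.1 h) hM
    · exact h
  have hCQ : IsPGroup p (ConjAct Q) := hQ.of_equiv ConjAct.toConjAct
  obtain ⟨b, hb, hb1⟩ := hCQ.exists_fixed_point_of_prime_dvd_card_of_fixed_point (α := M) hdvd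
    (a := 1) (fun g => smul_one g)
  have hbc : ∀ g : Q, g * (b : Q) = b * g := by
    intro g
    have h1 := congrArg (Subtype.val) (hb (ConjAct.toConjAct g))
    rw [ConjAct.Subgroup.val_conj_smul, ConjAct.toConjAct_smul] at h1
    exact mul_inv_eq_iff_eq_mul.1 h1
  have hbne : (b : Q) ≠ 1 := fun h => hb1 (Subtype.ext h.symm)
  obtain ⟨k, hk⟩ := hQ (b : Q)
  have hex : ∃ k : ℕ, (b : Q) ^ p ^ k = 1 := ⟨k, hk⟩
  classical
  have h0 : Nat.find hex ≠ 0 := by
    intro h
    have h2 := Nat.find_spec hex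
    rw [h, pow_zero, pow_one] at h2
    exact hbne h2
  obtain ⟨m, hm⟩ := Nat.exists_eq_succ_of_ne_zero h0
  refine ⟨(b : Q) ^ p ^ m, M.pow_mem b.2 _, ?_, ?_⟩
  · apply orderOf_eq_prime
    · have h2 := Nat.find_spec hex
      rw [hm, Nat.succ_eq_add_one, pow_succ, pow_mul] at h2
      exact h2
    · exact Nat.find_min hex (by rw [hm]; exact Nat.lt_succ_self m)
  · rw [Subgroup.mem_center_iff]
    intro g
    exact (Commute.pow_right (hbc g) _).eq

/-- Logarithms on a cyclic group of order `p`. -/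
theorem exists_log {p : ℕ} [Fact p.Prime] {P : Type*} [Group P] {c : P} (hco : orderOf c = p) :
    ∃ (e : Multiplicative (ZMod p) →* P) (lg : P → Multiplicative (ZMod p)),
      (∀ k, e k ∈ Subgroup.zpowers c) ∧ lg 1 = 1 ∧ ∀ y ∈ Subgroup.zpowers c, e (lg y) = y := by
  classical
  have : NeZero p := ⟨(Fact.out : p.Prime).ne_zero⟩
  have hfin : IsOfFinOrder c := by
    rw [← orderOf_pos_iff, hco]
    exact (Fact.out : p.Prime).pos
  let e : Multiplicative (ZMod p) →* P :=
    { toFun := fun k => c ^ (Multiplicative.toAdd k).val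
      map_one' := by
        show c ^ (0 : ZMod p).val = 1
        rw [ZMod.val_zero, pow_zero]
      map_mul' := by
        intro a b
        show c ^ (Multiplicative.toAdd a + Multiplicative.toAdd b).val = _
        rw [ZMod.val_add, ← pow_add]
        conv_rhs => rw [← pow_mod_orderOf, hco] }
  have he : ∀ y ∈ Subgroup.zpowers c, ∃ k : Multiplicative (ZMod p), e k = y := by
    intro y hy
    obtain ⟨m, hm⟩ := (hfin.mem_powers_iff_mem_zpowers.2 hy : y ∈ Submonoid.powers c)
    refine ⟨Multiplicative.ofAdd (m : ZMod p), ?_⟩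
    show c ^ (m : ZMod p).val = y
    have hm' : c ^ m = y := hm
    rw [ZMod.val_natCast, ← hm', ← pow_mod_orderOf c m, hco]
  refine ⟨e, fun y => if y = 1 then 1 else if h : ∃ k, e k = y then h.choose else 1, ?_, ?_, ?_⟩
  · intro k
    exact Subgroup.pow_mem _ (Subgroup.mem_zpowers c) _
  · simp
  · intro y hy
    by_cases hy1 : y = 1
    · subst hy1
      simp
    · simp only [if_neg hy1, dif_pos (he y hy)]
      exact (he y hy).choose_spec

variable {F : Type u} [Group F] [TopologicalSpace F] [IsTopologicalGroup F] [CompactSpace F]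
  [T2Space F] [TotallyDisconnectedSpace F]

omit [IsTopologicalGroup F] [CompactSpace F] [T2Space F] [TotallyDisconnectedSpace F] in
/-- Composition of a uniformly locally constant function with any function. -/
theorem lcf_comp {B : Subgroup F} {P P' : Type} {f : F → P} (hf : LCf B f) (φ : P → P') :
    LCf B (fun a => φ (f a)) := by
  obtain ⟨⟨N, hN, h1⟩, h2⟩ := hf
  exact ⟨⟨N, hN, fun u n hn => by simp only [h1 u n hn]⟩, fun u b hb => by simp only [h2 u b hb]⟩

omit [IsTopologicalGroup F] [CompactSpace F] [T2Space F] [TotallyDisconnectedSpace F] in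
theorem lcf_const {B : Subgroup F} {P : Type} (c : P) : LCf B (fun _ : F => c) :=
  ⟨⟨⊤, ON_top, fun _ _ _ => rfl⟩, fun _ _ _ => rfl⟩

omit [IsTopologicalGroup F] [CompactSpace F] [T2Space F] [TotallyDisconnectedSpace F] in
theorem lcf_map₂ {B : Subgroup F} {P P' P'' : Type} {f : F → P} {f' : F → P'} (hf : LCf B f)
    (hf' : LCf B f') (φ : P → P' → P'') : LCf B (fun a => φ (f a) (f' a)) := by
  obtain ⟨⟨N, hN, h1⟩, h2⟩ := hf
  obtain ⟨⟨N', hN', h1'⟩, h2'⟩ := hf'
  exact ⟨⟨N ⊓ N', hN.inf hN', fun u n hn => by simp only [h1 u n hn.1, h1' u n hn.2]⟩,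
    fun u b hb => by simp only [h2 u b hb, h2' u b hb]⟩

/-- If the crossed homomorphisms with values in `𝔽_p` take arbitrary values at `s`, then crossed
homomorphisms can be lifted through surjections of finite `p`-groups with prescribed lift of the
value at `s`. -/
theorem lift_s {p : ℕ} [Fact p.Prime] {X : Type v} {ι : X → F} (hF : IsFree p ι)
    (T : Subgroup F) [T.Normal] (s : F)
    (hS : ∀ f ∈ V p T, ∃ G : F → F → Multiplicative (ZMod p), IsX T G ∧
      ∀ a, G s a = Multiplicative.ofAdd (f a)) :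
    ∀ (P : Type) [Group P] [Finite P], IsPGroup p P → ∀ (Q : Type) [Group Q] (φ : P →* Q),
      Function.Surjective φ → ∀ G₀ : F → F → Q, IsX T G₀ → ∀ f : F → P, LCf T f →
      (∀ a, φ (f a) = G₀ s a) →
      ∃ G : F → F → P, IsX T G ∧ (∀ g a, φ (G g a) = G₀ g a) ∧ ∀ a, G s a = f a := by
  classical
  intro P0 _ _ hP0 Q _ φ0 hφ0 G₀ hG₀ f0 hf0 hfG0
  have main : ∀ (n : ℕ) (P : Type) [Group P] [Finite P], Nat.card P = n → IsPGroup p P →
      ∀ (φ : P →* Q), Function.Surjective φ → ∀ f : F → P, LCf T f → (∀ a, φ (f a) = G₀ s a) →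
      ∃ G : F → F → P, IsX T G ∧ (∀ g a, φ (G g a) = G₀ g a) ∧ ∀ a, G s a = f a := by
    intro n
    induction n using Nat.strong_induction_on with
    | _ n ih =>
    intro P _ _ hcard hP φ hφ f hf hfG
    by_cases hker : φ.ker = ⊥
    · -- `φ` is an isomorphism
      let e : P ≃* Q := MulEquiv.ofBijective φ ⟨(MonoidHom.ker_eq_bot_iff φ).1 hker, hφ⟩
      have he : ∀ y, φ (e.symm y) = y := fun y => e.apply_symm_apply y
      have he' : ∀ y, e.symm (φ y) = y := fun y => e.symm_apply_apply y
      refine ⟨fun g a => e.symm (G₀ g a), hG₀.map e.symm.toMonoidHom, fun g a => he _, fun a => ?_⟩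
      show e.symm (G₀ s a) = f a
      rw [← hfG a, he']
    · obtain ⟨c, hcK, hco, hcc⟩ := exists_central hP φ.ker hker
      let Z : Subgroup P := Subgroup.zpowers c
      have hZc : Z ≤ Subgroup.center P := by
        rw [Subgroup.zpowers_le]; exact hcc
      have hZK : Z ≤ φ.ker := by
        rw [Subgroup.zpowers_le]; exact hcK
      have hZn : Z.Normal := by
        constructor
        intro y hy g
        have := Subgroup.mem_center_iff.1 (hZc hy) g
        rw [this, mul_assoc, mul_inv_cancel, mul_one]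
        exact hy
      have hlt : Nat.card (P ⧸ Z) < n := by
        rw [← hcard]
        have h1 := Subgroup.card_eq_card_quotient_mul_card_subgroup Z
        have h2 : Nat.card Z = p := by
          show Nat.card (Subgroup.zpowers c) = p
          rw [Nat.card_zpowers, hco]
        have h3 : 0 < Nat.card (P ⧸ Z) := Nat.card_pos
        have h4 := (Fact.out : p.Prime).two_le
        rw [h1, h2]
        nlinarith
      let φ' : P ⧸ Z →* Q := QuotientGroup.lift Z φ (fun y hy => MonoidHom.mem_ker.1 (hZK hy))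
      have hφ'mk : ∀ y : P, φ' (QuotientGroup.mk' Z y) = φ y := fun y => rfl
      have hφ' : Function.Surjective φ' := by
        intro y
        obtain ⟨x, rfl⟩ := hφ y
        exact ⟨QuotientGroup.mk' Z x, rfl⟩
      obtain ⟨G', hG', hG'φ, hG's⟩ := ih _ hlt (P ⧸ Z) rfl (hP.to_quotient Z) φ' hφ'
        (fun a => QuotientGroup.mk' Z (f a)) (lcf_comp hf _) (fun a => by
          rw [hφ'mk]
          exact hfG a)
      -- section
      let σ : P ⧸ Z → P := fun q => if q = 1 then 1 else Quotient.out q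
      have hσ1 : σ 1 = 1 := if_pos rfl
      have hσ : ∀ q, (QuotientGroup.mk' Z) (σ q) = q := by
        intro q
        by_cases hq : q = 1
        · rw [hq, hσ1, map_one]
        · show (QuotientGroup.mk' Z) (if q = 1 then 1 else Quotient.out q) = q
          rw [if_neg hq]
          exact QuotientGroup.out_eq' q
      have hfin : {z | (fun a => σ (G' (ι z) a)) ≠ (1 : F → P)}.Finite := by
        obtain ⟨N, hN, -, hN1⟩ := hG'.cont
        refine (hF.conv N hN).subset fun z hz hz' => hz ?_
        funext a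
        show σ (G' (ι z) a) = 1
        rw [hN1 _ hz' a, hσ1]
      obtain ⟨G₁, hG₁, hG₁f⟩ := exists_X hF T hP (fun z a => σ (G' (ι z) a)) hfin
        (fun z => lcf_comp (hG'.lc (ι z)) σ)
      have hmod : (fun g a => (QuotientGroup.mk' Z) (G₁ g a)) = G' := by
        apply IsX.ext hF.gen (hG₁.map (QuotientGroup.mk' Z)) hG'
        intro z
        funext a
        show (QuotientGroup.mk' Z) (G₁ (ι z) a) = G' (ι z) a
        rw [hG₁f z]
        exact hσ _
      have hmod' : ∀ g a, (QuotientGroup.mk' Z) (G₁ g a) = G' g a := fun g a =>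
        congrFun (congrFun hmod g) a
      have hrZ : ∀ a, (G₁ s a)⁻¹ * f a ∈ Z := by
        intro a
        have h1 : (QuotientGroup.mk' Z) ((G₁ s a)⁻¹ * f a) = 1 := by
          rw [map_mul, map_inv, hmod', hG's, inv_mul_cancel]
        rwa [← MonoidHom.mem_ker, QuotientGroup.ker_mk'] at h1
      obtain ⟨e, lg, heZ, -, hlg⟩ := exists_log hco
      have hfV : (fun a => Multiplicative.toAdd (lg ((G₁ s a)⁻¹ * f a))) ∈ V p T := by
        rw [mem_V]
        exact lcf_map₂ (hG₁.lc s) hf (fun y y' => Multiplicative.toAdd (lg (y⁻¹ * y')))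
      obtain ⟨H₀, hH₀, hH₀s⟩ := hS _ hfV
      refine ⟨fun g a => G₁ g a * e (H₀ g a), hG₁.mul_central (hH₀.map e) ?_, ?_, ?_⟩
      · intro g a
        exact hZc (heZ _)
      · intro g a
        show φ (G₁ g a * e (H₀ g a)) = G₀ g a
        rw [map_mul, MonoidHom.mem_ker.1 (hZK (heZ _)), mul_one, ← hφ'mk, hmod', hG'φ]
      · intro a
        show G₁ s a * e (H₀ s a) = f a
        rw [hH₀s a, ofAdd_toAdd, hlg _ (hrZ a), mul_inv_cancel_left]
  exact main _ P0 rfl hP0 φ0 hφ0 f0 hf0 hfG0

/-- Shapiro's lemma: from homomorphisms on `T` to crossed homomorphisms. -/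
theorem hS_of_free {p : ℕ} [Fact p.Prime] (T : Subgroup F) [T.Normal] {s : F} (hs : s ∈ T)
    (h : ∀ f ∈ V p T, ∃ γ : F → ZMod p, IsH T ⊥ γ ∧ ∀ a, γ (a⁻¹ * s * a) = f a) :
    ∀ f ∈ V p T, ∃ G : F → F → Multiplicative (ZMod p), IsX T G ∧
      ∀ a, G s a = Multiplicative.ofAdd (f a) := by
  intro f hf
  obtain ⟨γ, hγ, hγf⟩ := h f hf
  obtain ⟨N, hN, hN0⟩ := hγ.2.2
  have hNn := hN.1
  obtain ⟨G, hG, hG1, -⟩ := shapiro T (P := Multiplicative (ZMod p))
    (fun b => Multiplicative.ofAdd (γ b))
    (fun b hb b' hb' => by rw [hγ.1 b hb b' hb', ofAdd_add]) N hN.2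
    (fun g k hk hgk => by rw [hN0 _ hgk (hNn.conj_mem k hk g), ofAdd_zero])
  refine ⟨G, hG, fun a => ?_⟩
  have hsa : a⁻¹ * s * a ∈ T := by
    have := (inferInstance : T.Normal).conj_mem s hs a⁻¹
    rwa [inv_inv] at this
  rw [hG.conj hs a, hG1 _ hsa, hγf]

end Pool.Agent.Helper34.PW
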