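import Pool.Agent.Helper34.PW.Bridge

/-!
# Powers of elements with free relation module, in elementary terms
-/

set_option autoImplicit false

namespace Pool.Agent.Helper34.PW

open Pool.Agent.Helper85.PF Filter Topology
open Pool.Agent.Helper64.FS (clS ncl clS_eq_FY ncl_eq_RN isFree_of_PF good_of_nozd ncl_normal NoZD
  V IsH ON)

universe u

theorem freeRelAt_of {p : ℕ} {F : Type u} [Group F] [TopologicalSpace F]
    [IsTopologicalGroup F] [CompactSpace F] [TotallyDisconnectedSpace F] (s : F)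
    (hs : ∀ f : F → ZMod p, IsLocallyConstant f → (∀ a, ∀ t ∈ RN s, f (a * t) = f a) →
      ∃ γ : F → ZMod p, ContinuousOn γ (RN s) ∧
        (∀ t ∈ RN s, ∀ t' ∈ RN s, γ (t * t') = γ t + γ t') ∧ ∀ a, γ (a⁻¹ * s * a) = f a) :
    FreeRelAt p (RN s) s := by
  rintro f ⟨⟨N, hN, hN1⟩, hf⟩
  have hloc : IsLocallyConstant f := by
    rw [IsLocallyConstant.iff_exists_open]
    intro u
    refine ⟨(fun x => u⁻¹ * x) ⁻¹' (N : Set F), hN.2.preimage (continuous_const_mul _), ?_, ?_⟩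
    · change u⁻¹ * u ∈ N
      rw [inv_mul_cancel]
      exact N.one_mem
    · intro x hx
      have h1 := hN1 u _ hx
      rw [mul_inv_cancel_left] at h1
      exact h1
  obtain ⟨γ, h1, h2, h3⟩ := hs f hloc hf
  have h10 : γ 1 = 0 := by
    have h4 := h2 1 (Subgroup.one_mem _) 1 (Subgroup.one_mem _)
    rw [mul_one] at h4
    exact left_eq_add.1 h4
  refine ⟨γ, ⟨h2, fun c hc => ?_, ?_⟩, h3⟩
  · rw [Subgroup.mem_bot] at hc
    rw [hc, h10]
  · have h4 : {y : ZMod p | y = 0} ∈ 𝓝 (γ 1) := by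
      rw [h10]
      exact (isOpen_discrete _).mem_nhds rfl
    have h5 := h1 1 (Subgroup.one_mem _) h4
    rw [mem_map, mem_nhdsWithin] at h5
    obtain ⟨U, hU, hU1, hU2⟩ := h5
    obtain ⟨H, hH⟩ := ProfiniteGrp.exist_openNormalSubgroup_sub_open_nhds_of_one hU hU1
    exact ⟨H.toSubgroup, ⟨inferInstance, H.isOpen'⟩, fun b hb hbH => hU2 ⟨hH hbH, hb⟩⟩

theorem q1_of_free {p : ℕ} [Fact p.Prime] {X F : Type u} [Group F] [TopologicalSpace F]
    [IsTopologicalGroup F] {ι : X → F} (hF : IsFreeProP p ι) (s : F)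
    (hs : ∀ f : F → ZMod p, IsLocallyConstant f → (∀ a, ∀ t ∈ RN s, f (a * t) = f a) →
      ∃ γ : F → ZMod p, ContinuousOn γ (RN s) ∧
        (∀ t ∈ RN s, ∀ t' ∈ RN s, γ (t * t') = γ t + γ t') ∧ ∀ a, γ (a⁻¹ * s * a) = f a)
    (j : ℕ) (hj : 1 ≤ j) (r : F) (hr : RN r = RN (s ^ p ^ j)) : Q1 ι r := by
  have := hF.isProP.compact
  have := hF.isProP.totDisc
  have : T2Space F := inferInstance
  intro X' hX' x hx
  have hF' := isFree_of_PF hF
  have key : clS ι {x}ᶜ ⊓ ncl r = ⊥ :=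
    freiheit hF' (freeRelAt_of s hs) hj hr hX' hx
  rw [clS_eq_FY, ncl_eq_RN] at key
  intro a b hab
  have h1 : ((a : F)⁻¹ * (b : F)) ∈ RN r := by
    have h2 : QuotientGroup.mk' (RN r) (a : F) = QuotientGroup.mk' (RN r) (b : F) := hab
    exact (QuotientGroup.eq).mp h2
  have h3 : ((a : F)⁻¹ * (b : F)) ∈ FY ι {x}ᶜ ⊓ RN r :=
    ⟨Subgroup.mul_mem _ (Subgroup.inv_mem _ a.2) b.2, h1⟩
  rw [key, Subgroup.mem_bot] at h3
  exact Subtype.ext (inv_mul_eq_one.mp h3)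

end Pool.Agent.Helper34.PW
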