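import Pool.Agent.Helper34.PW.Bridge
import Pool.Agent.Helper64.FS.Final

/-!
# The dichotomy theorem, with locally constant functions
-/

set_option autoImplicit false

namespace Pool.Agent.Helper34.PW

open Pool.Agent.Helper85.PF Filter Topology
open Pool.Agent.Helper64.FS (clS ncl clS_eq_FY ncl_eq_RN isFree_of_PF NoZD V ON cder final)

universe u

/-- `V p C` is the space of the locally constant functions which are right invariant under `C` -/
theorem mem_V_iff {p : ℕ} [Fact p.Prime] {F : Type u} [Group F] [TopologicalSpace F]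
    [IsTopologicalGroup F] (hF : IsProP p F) (C : Subgroup F) (f : F → ZMod p) :
    f ∈ V p C ↔ IsLocallyConstant f ∧ ∀ a, ∀ c ∈ C, f (a * c) = f a := by
  constructor
  · rintro ⟨⟨N, hN, hN1⟩, hf⟩
    refine ⟨?_, hf⟩
    rw [IsLocallyConstant.iff_exists_open]
    intro u
    refine ⟨(fun x => u⁻¹ * x) ⁻¹' (N : Set F), hN.2.preimage (continuous_const_mul _), ?_, ?_⟩
    · change u⁻¹ * u ∈ N
      rw [inv_mul_cancel]
      exact N.one_mem
    · intro x hx
      have h1 := hN1 u _ hx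
      rw [mul_inv_cancel_left] at h1
      exact h1
  · rintro ⟨h1, h2⟩
    exact ⟨exists_on hF f h1.continuous, h2⟩

/-- no zero divisors, in terms of locally constant functions -/
def IsDom (p : ℕ) {F : Type u} [Group F] [TopologicalSpace F] (C : Subgroup F) : Prop :=
  ∀ μ ν : (F → ZMod p) →ₗ[ZMod p] ZMod p,
    (∀ h : F → ZMod p, IsLocallyConstant h ∧ (∀ a, ∀ c ∈ C, h (a * c) = h a) →
      μ (fun a => ν fun b => h (a * b)) = 0) →
    (∀ h : F → ZMod p, IsLocallyConstant h ∧ (∀ a, ∀ c ∈ C, h (a * c) = h a) → μ h = 0) ∨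
      ∀ h : F → ZMod p, IsLocallyConstant h ∧ (∀ a, ∀ c ∈ C, h (a * c) = h a) → ν h = 0

theorem nozd_iff {p : ℕ} [Fact p.Prime] {F : Type u} [Group F] [TopologicalSpace F]
    [IsTopologicalGroup F] (hF : IsProP p F) (C : Subgroup F) : NoZD p C ↔ IsDom p C := by
  unfold NoZD IsDom
  simp only [mem_V_iff hF]

theorem dichotomy {p : ℕ} [Fact p.Prime] {X F : Type u} [Group F] [TopologicalSpace F]
    [IsTopologicalGroup F] (ι : X → F) (hF : IsFreeProP p ι) (r : F) (X' : Set X)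
    (hX' : Minimal (Dep ι r) X') (x : X) (hx : x ∈ X') :
    StaysFree ι r x ∨
      ((∃ t ∈ FY ι {x}ᶜ, ∃ (s : F) (j : ℕ), 1 ≤ j ∧ RN s = RN t ∧
        r * (s ^ p ^ j)⁻¹ ∈ (⁅RN t, RN t⁆ : Subgroup F).topologicalClosure ∧
          IsDom p (RN t)) ∧ ¬ IsDom p (RN r)) := by
  have := hF.isProP.compact
  have := hF.isProP.totDisc
  have : T2Space F := inferInstance
  rcases (final ι (isFree_of_PF hF) r).2 X' hX' x hx with h | ⟨⟨t, ht, s, j, hj, h1, h2, h3⟩, h4⟩
  · left
    rw [clS_eq_FY, ncl_eq_RN] at h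
    intro a b hab
    have h1 : ((a : F)⁻¹ * (b : F)) ∈ RN r := by
      have h2 : QuotientGroup.mk' (RN r) (a : F) = QuotientGroup.mk' (RN r) (b : F) := hab
      exact (QuotientGroup.eq).mp h2
    have h3 : ((a : F)⁻¹ * (b : F)) ∈ FY ι {x}ᶜ ⊓ RN r :=
      ⟨Subgroup.mul_mem _ (Subgroup.inv_mem _ a.2) b.2, h1⟩
    rw [h, Subgroup.mem_bot] at h3
    exact Subtype.ext (inv_mul_eq_one.mp h3)
  · right
    exact ⟨⟨t, ht, s, j, hj, h1, h2, (nozd_iff hF.isProP _).1 h3⟩,
      fun h => h4 ((nozd_iff hF.isProP _).2 h)⟩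

end Pool.Agent.Helper34.PW
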