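import Pool.Agent.Helper34.PW.Case0

/-!
# Crossed homomorphisms with values in wreath products
-/

set_option autoImplicit false

namespace Pool.Agent.Helper34.PW

open Pool.Agent.Helper64.FS

universe u v

/-- If `σ` has order dividing `p ^ j` and no fixed point on `Ω`, then there is a function
`κ : Ω → ℤ/p` with `κ (σ ω) = κ ω + 1`. -/
theorem exists_kap {p : ℕ} [Fact p.Prime] {Q : Type} [Group Q] {Ω : Type} [MulAction Q Ω]
    (σ : Q) (j : ℕ) (hσ : σ ^ p ^ j = 1) (hfix : ∀ ω : Ω, σ • ω ≠ ω) :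
    ∃ κ : Ω → ZMod p, ∀ ω, κ (σ • ω) = κ ω + 1 := by
  classical
  have hpp : p.Prime := Fact.out
  have hdvd : ∀ (n : ℤ) (ω : Ω), σ ^ n • ω = ω → (p : ℤ) ∣ n := by
    intro n ω h
    by_contra hn
    have hcop : IsCoprime (p : ℤ) n := (Prime.coprime_iff_not_dvd
      (Nat.prime_iff_prime_int.1 hpp)).2 hn
    have hcop' : IsCoprime ((p : ℤ) ^ j) n := hcop.pow_left
    obtain ⟨a, b, hab⟩ := hcop'
    have h1 : σ = (σ ^ n) ^ b := by
      have h2 : σ ^ ((p : ℤ) ^ j) = 1 := by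
        have : ((p : ℤ) ^ j) = ((p ^ j : ℕ) : ℤ) := by push_cast; rfl
        rw [this, zpow_natCast, hσ]
      calc σ = σ ^ (a * (p : ℤ) ^ j + b * n) := by rw [hab, zpow_one]
        _ = (σ ^ n) ^ b := by
          rw [zpow_add, mul_comm a, zpow_mul, h2, one_zpow, one_mul, mul_comm b, zpow_mul]
    have h3 : (σ ^ n) ∈ MulAction.stabilizer Q ω := h
    have h4 : (σ ^ n) ^ b ∈ MulAction.stabilizer Q ω := Subgroup.zpow_mem _ h3 b
    rw [← h1] at h4
    exact hfix ω h4
  let S : Setoid Ω :=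
    { r := fun ω ω' => ∃ n : ℤ, ω' = σ ^ n • ω
      iseqv := ⟨fun ω => ⟨0, by simp⟩, by
        rintro ω ω' ⟨n, rfl⟩
        exact ⟨-n, by rw [smul_smul, ← zpow_add]; simp⟩, by
        rintro ω ω' ω'' ⟨n, rfl⟩ ⟨m, rfl⟩
        exact ⟨m + n, by rw [smul_smul, ← zpow_add]⟩⟩ }
  let rep : Ω → Ω := fun ω => (Quotient.mk S ω).out
  have hrep : ∀ ω, ∃ n : ℤ, ω = σ ^ n • rep ω := fun ω => Quotient.mk_out (s := S) ω
  choose n hn using hrep
  refine ⟨fun ω => (n ω : ZMod p), fun ω => ?_⟩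
  have h1 : rep (σ • ω) = rep ω := by
    have : Quotient.mk S (σ • ω) = Quotient.mk S ω :=
      Quotient.sound (s := S) (Setoid.symm' S ⟨1, by rw [zpow_one]⟩)
    show (Quotient.mk S (σ • ω)).out = (Quotient.mk S ω).out
    rw [this]
  have h2 := hn (σ • ω)
  have h3 := hn ω
  rw [h1] at h2
  have h4 : σ ^ (n (σ • ω) - (n ω + 1)) • rep ω = rep ω := by
    have h5 : σ ^ (n (σ • ω)) • rep ω = σ ^ (n ω + 1) • rep ω := by
      rw [← h2, add_comm, zpow_add, zpow_one, ← smul_smul, ← h3]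
    rw [sub_eq_add_neg, add_comm, zpow_add, ← smul_smul, h5, smul_smul, ← zpow_add]
    simp
  have h6 := hdvd _ _ h4
  rw [← ZMod.intCast_zmod_eq_zero_iff_dvd] at h6
  push_cast at h6
  rw [sub_eq_zero] at h6
  exact h6

section

variable {Q : Type} [Group Q] {Ω : Type} [MulAction Q Ω]

/-- The wreath product `(Ω → P) ⋊ Q`. -/
abbrev Wr (Q : Type) [Group Q] (Ω : Type) [MulAction Q Ω] (P : Type) [Group P] : Type :=
  (Ω → P) ⋊[(mulAutArrow : Q →* MulAut (Ω → P))] Q

theorem wr_mul_left {P : Type} [Group P] (a b : Wr Q Ω P) (ω : Ω) :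
    (a * b).left ω = a.left ω * b.left (a.right⁻¹ • ω) := rfl

instance wr_finite [Finite Q] [Finite Ω] {P : Type} [Group P] [Finite P] : Finite (Wr Q Ω P) :=
  Finite.of_equiv _ (SemidirectProduct.equivProd (φ := (mulAutArrow : Q →* MulAut (Ω → P)))).symm

theorem wr_isPGroup {p : ℕ} [Fact p.Prime] [Finite Q] [Finite Ω] (hQ : IsPGroup p Q) {P : Type}
    [Group P] [Finite P] (hP : IsPGroup p P) : IsPGroup p (Wr Q Ω P) := by
  obtain ⟨a, ha⟩ := hP.exists_card_eq
  obtain ⟨b, hb⟩ := hQ.exists_card_eq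
  have := Fintype.ofFinite Ω
  refine IsPGroup.of_card (n := a * Nat.card Ω + b) ?_
  rw [SemidirectProduct.card, Nat.card_fun, ha, hb, pow_add, pow_mul]

/-- The map of wreath products. -/
def wrMap {P P' : Type} [Group P] [Group P'] (f : P →* P') : Wr Q Ω P →* Wr Q Ω P' where
  toFun w := ⟨fun ω => f (w.left ω), w.right⟩
  map_one' := by
    ext ω
    · exact map_one f
    · rfl
  map_mul' a b := by
    ext ω
    · exact map_mul f _ _
    · rfl

theorem wrMap_left {P P' : Type} [Group P] [Group P'] (f : P →* P') (w : Wr Q Ω P) (ω : Ω) :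
    (wrMap f w).left ω = f (w.left ω) := rfl

theorem wrMap_right {P P' : Type} [Group P] [Group P'] (f : P →* P') (w : Wr Q Ω P) :
    (wrMap f w).right = w.right := rfl

theorem wrMap_surjective {P P' : Type} [Group P] [Group P'] (f : P →* P')
    (hf : Function.Surjective f) : Function.Surjective (wrMap f : Wr Q Ω P →* Wr Q Ω P') := by
  intro w
  choose g hg using hf
  refine ⟨⟨fun ω => g (w.left ω), w.right⟩, ?_⟩
  ext ω
  · exact hg _
  · rfl

/-- The conjugates of `(1; σ)` by elements of `Ω → P`. -/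
def cj {P : Type} [Group P] (σ : Q) (u : Ω → P) : Wr Q Ω P := ⟨fun ω => u ω * (u (σ⁻¹ • ω))⁻¹, σ⟩

theorem cj_eq {P : Type} [Group P] (σ : Q) (u : Ω → P) :
    (cj σ u : Wr Q Ω P) = SemidirectProduct.inl u * SemidirectProduct.inr σ *
      (SemidirectProduct.inl u)⁻¹ := by
  rw [← map_inv]
  ext ω
  · rw [wr_mul_left, wr_mul_left]
    simp [cj]
  · simp [cj]

theorem cj_pow {P : Type} [Group P] (σ : Q) (u : Ω → P) {n : ℕ} (h : σ ^ n = 1) :
    (cj σ u : Wr Q Ω P) ^ n = 1 := by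
  rw [cj_eq, conj_pow, ← map_pow, h, map_one, mul_one, mul_inv_cancel]

/-- The diagonal embedding. -/
def diag {P A : Type} [Group P] [Group A] (e : A →* P) : A →* Wr Q Ω P where
  toFun k := ⟨fun _ => e k, 1⟩
  map_one' := by
    ext ω
    · exact map_one e
    · rfl
  map_mul' a b := by
    ext ω
    · exact map_mul e a b
    · exact (mul_one (1 : Q)).symm

theorem diag_left {P A : Type} [Group P] [Group A] (e : A →* P) (k : A) (ω : Ω) :
    (diag e k : Wr Q Ω P).left ω = e k := rfl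

theorem diag_right {P A : Type} [Group P] [Group A] (e : A →* P) (k : A) :
    (diag e k : Wr Q Ω P).right = 1 := rfl

theorem diag_center {P A : Type} [Group P] [Group A] (e : A →* P)
    (he : ∀ k, e k ∈ Subgroup.center P) (k : A) :
    (diag e k : Wr Q Ω P) ∈ Subgroup.center (Wr Q Ω P) := by
  rw [Subgroup.mem_center_iff]
  intro w
  ext ω
  · rw [wr_mul_left, wr_mul_left, diag_left, diag_left, diag_right, inv_one, one_smul]
    exact Subgroup.mem_center_iff.1 (he k) _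
  · rw [SemidirectProduct.mul_right, SemidirectProduct.mul_right, diag_right, mul_one, one_mul]

/-- Multiplication by a diagonal central element of order `p` does not change the class. -/
theorem cj_mul_diag {p : ℕ} {P : Type} [Group P] {σ : Q} {κ : Ω → ZMod p}
    (hκ : ∀ ω, κ (σ • ω) = κ ω + 1) (e : Multiplicative (ZMod p) →* P)
    (he : ∀ k, e k ∈ Subgroup.center P) (u : Ω → P) (k : Multiplicative (ZMod p)) :
    ∃ u' : Ω → P, (cj σ u : Wr Q Ω P) * diag e k = cj σ u' := by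
  refine ⟨fun ω => u ω * e (Multiplicative.ofAdd (Multiplicative.toAdd k * κ ω)), ?_⟩
  ext ω
  · rw [wr_mul_left, diag_left]
    show u ω * (u (σ⁻¹ • ω))⁻¹ * e k =
      u ω * e (Multiplicative.ofAdd (Multiplicative.toAdd k * κ ω)) *
        (u (σ⁻¹ • ω) * e (Multiplicative.ofAdd (Multiplicative.toAdd k * κ (σ⁻¹ • ω))))⁻¹
    have h1 : κ ω = κ (σ⁻¹ • ω) + 1 := by
      rw [← hκ, smul_inv_smul]
    have h2 : e (Multiplicative.ofAdd (Multiplicative.toAdd k * κ ω)) =
        e (Multiplicative.ofAdd (Multiplicative.toAdd k * κ (σ⁻¹ • ω))) * e k := by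
      rw [← map_mul, h1, mul_add, mul_one, ofAdd_add, ofAdd_toAdd]
    set z := e (Multiplicative.ofAdd (Multiplicative.toAdd k * κ (σ⁻¹ • ω))) with hz
    have hz1 := Subgroup.mem_center_iff.1 (he (Multiplicative.ofAdd
      (Multiplicative.toAdd k * κ (σ⁻¹ • ω))))
    rw [← hz] at hz1
    have hk := Subgroup.mem_center_iff.1 (he k)
    rw [h2, mul_inv_rev]
    calc u ω * (u (σ⁻¹ • ω))⁻¹ * e k = u ω * ((u (σ⁻¹ • ω))⁻¹ * e k) := by group
      _ = u ω * (e k * (u (σ⁻¹ • ω))⁻¹) := by rw [hk]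
      _ = u ω * (z * (z⁻¹ * e k)) * (u (σ⁻¹ • ω))⁻¹ := by group
      _ = u ω * (z * (e k * z⁻¹)) * (u (σ⁻¹ • ω))⁻¹ := by rw [hk z⁻¹]
      _ = u ω * (z * e k) * (z⁻¹ * (u (σ⁻¹ • ω))⁻¹) := by group
  · rw [SemidirectProduct.mul_right, diag_right, mul_one]
    rfl

theorem wrMap_cj {P P' : Type} [Group P] [Group P'] (f : P →* P') (σ : Q) (u : Ω → P) :
    wrMap f (cj σ u : Wr Q Ω P) = cj σ (fun ω => f (u ω)) := by
  ext ω
  · show f (u ω * (u (σ⁻¹ • ω))⁻¹) = f (u ω) * (f (u (σ⁻¹ • ω)))⁻¹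
    rw [map_mul, map_inv]
  · rfl

end

end Pool.Agent.Helper34.PW
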